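import Pool.Agent.Y699.Ql

/-!
The supplementary law `(-2 / π)_4 = i^(Im π / 2)` for primary Gaussian primes `π`.
-/

set_option autoImplicit false

open H385 (ZI RQ im1 nrm)

namespace Pool.Agent.E8helper85.Q2

open Pool.Agent.Y699
open Pool.Agent.W164.RC (Ip Ip_spec Ip_exists Ip_one Ip_three dg two2 prim_iff_dvd unit_norm unit_cases)
open Pool.Agent.H304R2.EC.A1 (prim prim_mul prim_cancel prim_one prim_norm_odd prim_star eq_one_of_prim
  norm_def' re_mul' im_mul' eq_of_dvd prim_ne_zero)

variable {π : ZI}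

lemma im1_pow_mod {m n : ℕ} (h : m % 4 = n % 4) : im1 ^ m = im1 ^ n := by
  rw [← Nat.div_add_mod m 4, ← Nat.div_add_mod n 4, pow_add, pow_add, pow_mul, pow_mul, im1_four,
    one_pow, one_pow, h]

lemma not_nat_dvd (h : PP π) (hb : π.im ≠ 0) {q : ℕ} (hq : q.Prime) : ¬ (q : ZI) ∣ π := by
  rintro ⟨c, hc⟩
  have hre : π.re = q * c.re := by rw [hc, re_mul']; simp
  have him : π.im = q * c.im := by rw [hc, im_mul']; simp
  have ho := h.re_odd
  rcases h.pr.irreducible.isUnit_or_isUnit hc with h1 | h1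
  · rw [Zsqrtd.isUnit_iff_norm_isUnit, Zsqrtd.norm_natCast, Int.isUnit_iff] at h1
    have h2 := hq.two_le
    rcases h1 with h1 | h1 <;> nlinarith
  · rw [Zsqrtd.isUnit_iff_norm_isUnit, Int.isUnit_iff] at h1
    have h2 : c.norm = 1 := by
      have := GaussianInt.norm_nonneg c
      omega
    rw [norm_def'] at h2
    have h3 : c.im ≠ 0 := by
      rintro h0
      rw [h0, mul_zero] at him
      exact hb him
    have h4 : c.re ≠ 0 := by
      rintro h0
      rw [h0, mul_zero] at hre
      omega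
    have h5 : 0 < c.re ^ 2 := by positivity
    have h6 : 0 < c.im ^ 2 := by positivity
    omega

lemma dvd_of_parts {q : ℕ} (h1 : (q : ℤ) ∣ π.re) (h2 : (q : ℤ) ∣ π.im) : (q : ZI) ∣ π := by
  obtain ⟨x, hx⟩ := h1
  obtain ⟨y, hy⟩ := h2
  refine ⟨⟨x, y⟩, ?_⟩
  ext
  · rw [re_mul']; simp [hx]
  · rw [im_mul']; simp [hy]

lemma cast_nab (m : ℤ) : ((m.natAbs : ℕ) : ZI) ∣ ((m : ℤ) : ZI) := by
  have : ((m.natAbs : ℤ) : ZI) ∣ (m : ZI) := Int.cast_dvd_cast _ _ (Int.natAbs_dvd.2 dvd_rfl)
  rwa [Int.cast_natCast] at this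

lemma e8_sq (n : ℕ) : ((e8 n : ℤ) : ZI) ^ 2 = 1 := by
  unfold e8
  split_ifs <;> decide

theorem sup_core (J : JJ) (h : PP π) : q4 π (-2) = im1 ^ ((π.im / 2) % 4).toNat := by
  by_cases hb : π.im = 0
  · rcases h.cases with ⟨p, hp, hp4, hpn⟩ | ⟨q, hq, hq4, hqn⟩
    · exfalso
      rw [norm_def', hb] at hpn
      have h1 : ((π.re.natAbs * π.re.natAbs : ℕ) : ℤ) = p := by
        rw [← hpn]
        push_cast
        rw [← sq, sq_abs]
        ring
      have h2 : π.re.natAbs * π.re.natAbs = p := by exact_mod_cast h1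
      rw [← h2] at hp
      have h3 : π.re.natAbs ≠ 1 := by
        intro h4
        rw [h4] at hp
        exact Nat.not_prime_one hp
      exact Nat.not_prime_mul h3 h3 hp
    · have h1 : ¬ (q : ℤ) ∣ (-2) := by
        rintro h2
        have h3 : (q : ℤ) ∣ 2 := (dvd_neg).1 h2
        have h4 : q ∣ 2 := by exact_mod_cast h3
        have h5 := Nat.le_of_dvd (by norm_num) h4
        omega
      have h2 := Rp_rat hq h1
      unfold Rp at h2
      rw [Ip_three hq4, Finset.prod_singleton] at h2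
      rw [hb, hqn]
      push_cast at h2
      rw [h2]
      decide
  · obtain ⟨a, ha⟩ : ∃ a, a = π.re := ⟨_, rfl⟩
    obtain ⟨b, hbd⟩ : ∃ b, b = π.im := ⟨_, rfl⟩
    obtain ⟨s, hs⟩ : ∃ s, s = a + b := ⟨_, rfl⟩
    have a1 := h.re_odd
    have a2 := h.im_even
    have a3 := h.prm.2
    have na := split_not_dvd_re h hb
    rw [← ha] at a1 na
    rw [← hbd] at a2
    rw [← ha, ← hbd, ← hs] at a3
    have hπ : π = (a : ZI) + (b : ZI) * im1 := by
      ext
      · simp only [Zsqrtd.re_add, re_mul', Zsqrtd.re_intCast, Zsqrtd.im_intCast]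
        simp only [im1, ha]; ring
      · simp only [Zsqrtd.im_add, im_mul', Zsqrtd.re_intCast, Zsqrtd.im_intCast]
        simp only [im1, hbd]; ring
    have I2 : im1 * im1 = (-1 : ZI) := by decide
    have e1 : (s : ZI) - (a : ZI) * (1 + im1) = π * (-im1) := by
      rw [hπ, hs]
      push_cast
      linear_combination (b : ZI) * I2
    have e2 : (-2 : ZI) = im1 * (1 + im1) ^ 2 := by decide
    have ns : ¬ π ∣ (s : ZI) := by
      intro h1
      have h2 : π ∣ (a : ZI) * (1 + im1) := by
        have h3 : (a : ZI) * (1 + im1) = (s : ZI) + π * im1 := by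
          linear_combination -e1
        rw [h3]
        exact dvd_add h1 (dvd_mul_right _ _)
      rcases h.pr.dvd_or_dvd h2 with h3 | h3
      · exact na h3
      · exact absurd (h.small h3 (by decide)) (by decide)
    have p1 : q4 π (a : ZI) * q4 π (1 + im1) = q4 π (s : ZI) := by
      rw [← q4_mul h]
      exact (q4_per h ⟨_, e1⟩).symm
    have p2 : q4 π (-2) = q4 π im1 * q4 π (1 + im1) ^ 2 := by
      rw [e2, q4_mul h, q4_pow h]
    -- the square of the symbol of `a`
    have r1 : q4 π (a : ZI) ^ 2 = 1 := by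
      rw [q4_int J h a1 na]
      have h1 : Rs π a.natAbs = Rs ((b : ZI) * im1) a.natAbs := by
        apply Rs_per
        have h2 : π - (b : ZI) * im1 = (a : ZI) := by rw [hπ]; ring
        rw [h2]
        exact cast_nab a
      have h2 : Rs π a.natAbs = ((e8 a.natAbs : ℤ) : ZI) := by
        rw [h1, Rs_mul, Rs_im (by omega), Rs_rat, one_mul]
        intro q hq hqc hqd
        exact not_nat_dvd h hb hq (dvd_of_parts (by rw [← ha]; exact Int.natCast_dvd.2 hqc)
          (by rw [← hbd]; exact hqd))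
      rw [h2, mul_pow, e8_sq, mul_one]
      split_ifs
      · rw [one_pow]
      · rw [← pow_mul, mul_comm, pow_mul]; simp
    have r2 : q4 π (s : ZI) ^ 2 = ((e8 s.natAbs : ℤ) : ZI) := by
      rw [q4_int J h (by omega) ns, if_pos a3, one_mul]
      have h1 : Rs π s.natAbs = Rs ((b : ZI) * (im1 - 1)) s.natAbs := by
        apply Rs_per
        have h2 : π - (b : ZI) * (im1 - 1) = (s : ZI) := by rw [hπ, hs]; push_cast; ring
        rw [h2]
        exact cast_nab s
      have h2 : Rs (b : ZI) s.natAbs = 1 := by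
        apply Rs_rat
        intro q hq hqc hqd
        have h3 : (q : ℤ) ∣ s := Int.natCast_dvd.2 hqc
        have h4 : (q : ℤ) ∣ a := by
          have : a = s - b := by rw [hs]; ring
          rw [this]
          exact dvd_sub h3 hqd
        exact not_nat_dvd h hb hq (dvd_of_parts (by rw [← ha]; exact h4) (by rw [← hbd]; exact hqd))
      have h3 : Rs (im1 - 1) s.natAbs ^ 2 = Rs (((-2 : ℤ) : ZI) * im1) s.natAbs := by
        rw [sq, ← Rs_mul]
        congr 1
      rw [h1, Rs_mul, h2, one_mul, h3, Rs_mul, Rs_im (by omega), Rs_rat, one_mul]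
      intro q hq hqc hqd
      have h4 : (q : ℤ) ∣ 2 := (dvd_neg).1 hqd
      have h5 : q ∣ 2 := by exact_mod_cast h4
      have h6 : q = 2 := (Nat.prime_dvd_prime_iff_eq hq Nat.prime_two).1 h5
      rw [h6] at hqc
      omega
    have p3 : q4 π (1 + im1) ^ 2 = ((e8 s.natAbs : ℤ) : ZI) := by
      have := congrArg (· ^ 2) p1
      simp only [mul_pow] at this
      rw [r1, r2, one_mul] at this
      exact this
    rw [p2, p3, q4_unit h im1_norm]
    -- the exponents
    obtain ⟨k, hk⟩ : ∃ k, s = 1 + 4 * k := ⟨s / 4, by omega⟩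
    obtain ⟨c, hc⟩ : ∃ c, b = 2 * c := ⟨b / 2, by omega⟩
    have hE : ((e8 s.natAbs : ℤ) : ZI) = im1 ^ (2 * (k % 2).toNat) := by
      rcases Int.emod_two_eq_zero_or_one k with h6 | h6
      · rw [h6]
        unfold e8
        rw [if_pos (by omega)]
        decide
      · rw [h6]
        unfold e8
        rw [if_neg (by omega)]
        decide
    rw [hE, ← pow_add]
    apply im1_pow_mod
    have hn : (nrm π : ℤ) = 1 + 4 * (2 * c ^ 2 - c + 2 * k + 4 * (k ^ 2 - k * c)) := by
      rw [nrm_cast π, norm_def', ← ha, ← hbd, hc]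
      have : a = 1 + 4 * k - 2 * c := by omega
      rw [this]
      ring
    rw [← hbd, hc]
    have hc2 : c ^ 2 % 2 = c % 2 := by
      rw [sq, Int.mul_emod]
      rcases Int.emod_two_eq_zero_or_one c with h6 | h6 <;> rw [h6] <;> rfl
    generalize (k ^ 2 - k * c) = w at hn
    generalize c ^ 2 = v at hn hc2
    omega

end Pool.Agent.E8helper85.Q2
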